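import Pool.Agent.W485.QL.Stm

/-!
# Project QL, part NS
-/

set_option autoImplicit false

open Filter Topology Metric Pool.Agent.W485.QL

namespace Pool.Agent.W247.QL

variable {E : Set ℝ} {l : ℕ → ℝ} {h : ℕ → ℂ → ℂ}

lemma dist_re_le (z w : ℂ) : dist z.re w.re ≤ ‖z - w‖ := by
  rw [Real.dist_eq, ← Complex.sub_re]
  exact Complex.abs_re_le_norm _

/-- upper and lower bounds for the differences -/
lemma diff_bd (hs : Sys E l h) (n : ℕ) (z z' : ℂ) :
    9 / 10 * ‖z' - z‖ ≤ ‖h n z' - h n z‖ ∧ ‖h n z' - h n z‖ ≤ 11 / 10 * ‖z' - z‖ := by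
  have h1 := hs.lip n z' z
  have h2 : ‖h n z' - h n z‖ ≤ ‖z' - z‖ + ‖(h n z' - h n z) - (z' - z)‖ := by
    calc ‖h n z' - h n z‖ = ‖(z' - z) + ((h n z' - h n z) - (z' - z))‖ := by congr 1; ring
      _ ≤ _ := norm_add_le _ _
  have h3 : ‖z' - z‖ ≤ ‖h n z' - h n z‖ + ‖(h n z' - h n z) - (z' - z)‖ := by
    calc ‖z' - z‖ = ‖(h n z' - h n z) - ((h n z' - h n z) - (z' - z))‖ := by congr 1; ring
      _ ≤ _ := norm_sub_le _ _
  constructor <;> linarith

lemma strong (hs : Sys E l h) (n : ℕ) : ∀ z : ℂ, infDist z.re E ≤ 3 * l n →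
    ∃ A : ℂ, (1 + 1 / 100000) ^ n ≤ ‖A‖ ∧ ∀ z', ‖z' - z‖ ≤ 2 * l n →
      ‖G h n z' - G h n z - A * (z' - z)‖ ≤ 1 / 4 * (1 - (1 / 2) ^ n) * ‖A‖ * ‖z' - z‖ := by
  induction n with
  | zero =>
    intro z _
    refine ⟨1, by simp, fun z' _ => ?_⟩
    simp [G]
  | succ n ih =>
    intro z hz
    obtain ⟨a, ha, hna⟩ := hs.near n z hz
    have hl := hs.lsucc n
    have hlp := hs.lpos n
    have hlp' := hs.lpos (n + 1)
    have hw : infDist (h n z).re E ≤ 3 * l n := by
      have h1 := infDist_le_infDist_add_dist (s := E) (x := (h n z).re) (y := z.re)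
      have h2 := dist_re_le (h n z) z
      have h3 := hs.disp n z
      linarith
    obtain ⟨A, hA, hnA⟩ := ih (h n z) hw
    refine ⟨A * a, ?_, fun z' hz' => ?_⟩
    · rw [norm_mul, pow_succ]
      exact mul_le_mul hA ha (by norm_num) (norm_nonneg _)
    · have h4 := (diff_bd hs n z z').2
      have h5 : ‖h n z' - h n z‖ ≤ 2 * l n := by linarith
      have h6 := hnA (h n z') h5
      have h7 := hna z' hz'
      have hp0 : (0 : ℝ) < (1 / 2) ^ n := by positivity
      have hp1 : ((1 : ℝ) / 2) ^ n ≤ 1 := pow_le_one₀ (by norm_num) (by norm_num)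
      have h8 : ‖h n z' - h n z‖ ≤ (‖a‖ + (1 / 2) ^ n / 10) * ‖z' - z‖ := by
        calc ‖h n z' - h n z‖ = ‖a * (z' - z) + (h n z' - h n z - a * (z' - z))‖ := by congr 1; ring
          _ ≤ ‖a * (z' - z)‖ + ‖h n z' - h n z - a * (z' - z)‖ := norm_add_le _ _
          _ ≤ ‖a‖ * ‖z' - z‖ + (1 / 2) ^ n / 10 * ‖z' - z‖ := by
              rw [norm_mul]
              linarith
          _ = _ := by ring
      have e : G h (n + 1) z' - G h (n + 1) z - A * a * (z' - z) =
          (G h n (h n z') - G h n (h n z) - A * (h n z' - h n z)) + A * (h n z' - h n z - a * (z' - z)) := by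
        simp only [G, Function.comp]
        ring
      rw [e]
      refine (norm_add_le _ _).trans ?_
      rw [norm_mul A (h n z' - h n z - a * (z' - z)), norm_mul A a]
      have h9 : 1 / 4 * (1 - (1 / 2) ^ n) * ‖A‖ * ‖h n z' - h n z‖ ≤
          1 / 4 * (1 - (1 / 2) ^ n) * ‖A‖ * ((‖a‖ + (1 / 2) ^ n / 10) * ‖z' - z‖) := by
        apply mul_le_mul_of_nonneg_left h8
        have : (0 : ℝ) ≤ 1 - (1 / 2) ^ n := by linarith
        positivity
      have h10 : ‖A‖ * ‖h n z' - h n z - a * (z' - z)‖ ≤ ‖A‖ * ((1 / 2) ^ n / 10 * ‖z' - z‖) :=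
        mul_le_mul_of_nonneg_left h7 (norm_nonneg _)
      refine (add_le_add (h6.trans h9) h10).trans ?_
      obtain ⟨x, hx⟩ : ∃ x : ℝ, x = (1 / 2) ^ n := ⟨_, rfl⟩
      rw [pow_succ, ← hx]
      rw [← hx] at hp0 hp1
      have h11 : 1 / 4 * (1 - x) * (‖a‖ + x / 10) + x / 10 ≤ 1 / 4 * (1 - x * (1 / 2)) * ‖a‖ := by
        nlinarith [mul_nonneg hp0.le (show 0 ≤ ‖a‖ - 1 by linarith), mul_nonneg hp0.le hp0.le]
      have h12 := mul_le_mul_of_nonneg_right h11 (mul_nonneg (norm_nonneg A) (norm_nonneg (z' - z)))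
      calc 1 / 4 * (1 - x) * ‖A‖ * ((‖a‖ + x / 10) * ‖z' - z‖) + ‖A‖ * (x / 10 * ‖z' - z‖)
          = (1 / 4 * (1 - x) * (‖a‖ + x / 10) + x / 10) * (‖A‖ * ‖z' - z‖) := by ring
        _ ≤ 1 / 4 * (1 - x * (1 / 2)) * ‖a‖ * (‖A‖ * ‖z' - z‖) := h12
        _ = 1 / 4 * (1 - x * (1 / 2)) * (‖A‖ * ‖a‖) * ‖z' - z‖ := by ring

theorem t_NS' (hs : Sys E l h) : NS E l h := by
  intro n z hz
  obtain ⟨A, hA, h1⟩ := strong hs n z hz
  refine ⟨A, hA, fun z' hz' => (h1 z' hz').trans ?_⟩
  have hp0 : (0 : ℝ) < (1 / 2) ^ n := by positivity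
  have h2 : 0 ≤ ‖A‖ * ‖z' - z‖ := by positivity
  nlinarith

theorem t_QS (hs : Sys E l h) : QS l h := by
  intro n
  induction n with
  | zero =>
    intro z
    refine ⟨1, le_rfl, fun z' _ => ?_⟩
    have := norm_nonneg (z' - z)
    simp only [G, id]
    constructor <;> linarith
  | succ n ih =>
    intro z
    have hl := hs.lsucc n
    have hlp := hs.lpos n
    have hlp' := hs.lpos (n + 1)
    rcases le_or_gt (infDist (h n z).re E) (3 * l n) with hc | hc
    · obtain ⟨A, hA, h1⟩ := t_NS' hs n (h n z) hc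
      refine ⟨‖A‖, ?_, fun z' hz' => ?_⟩
      · refine le_trans ?_ hA
        exact one_le_pow₀ (by norm_num)
      · obtain ⟨h2, h3⟩ := diff_bd hs n z z'
        have h4 := h1 (h n z') (by linarith)
        have h5 : ‖A‖ * ‖h n z' - h n z‖ ≤ ‖G h n (h n z') - G h n (h n z)‖ +
            ‖G h n (h n z') - G h n (h n z) - A * (h n z' - h n z)‖ := by
          rw [← norm_mul]
          calc ‖A * (h n z' - h n z)‖ = ‖(G h n (h n z') - G h n (h n z)) -
              (G h n (h n z') - G h n (h n z) - A * (h n z' - h n z))‖ := by congr 1; ring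
            _ ≤ _ := norm_sub_le _ _
        have h6 : ‖G h n (h n z') - G h n (h n z)‖ ≤ ‖A‖ * ‖h n z' - h n z‖ +
            ‖G h n (h n z') - G h n (h n z) - A * (h n z' - h n z)‖ := by
          rw [← norm_mul]
          calc ‖G h n (h n z') - G h n (h n z)‖ = ‖A * (h n z' - h n z) +
              (G h n (h n z') - G h n (h n z) - A * (h n z' - h n z))‖ := by congr 1; ring
            _ ≤ _ := norm_add_le _ _
        have h7 := mul_le_mul_of_nonneg_left h2 (norm_nonneg A)
        have h8 := mul_le_mul_of_nonneg_left h3 (norm_nonneg A)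
        have h9 : 0 ≤ ‖A‖ * ‖z' - z‖ := by positivity
        have e1 : G h (n + 1) z' = G h n (h n z') := rfl
        have e2 : G h (n + 1) z = G h n (h n z) := rfl
        rw [e1, e2]
        constructor <;> nlinarith
    · have hd := dist_re_le (h n z) z
      have hd' := hs.disp n z
      have h1 : 2 * l n ≤ infDist z.re E := by
        have := infDist_le_infDist_add_dist (s := E) (x := (h n z).re) (y := z.re)
        linarith
      have e1 : h n z = z := hs.off n z h1
      obtain ⟨t, ht, h2⟩ := ih z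
      refine ⟨t, ht, fun z' hz' => ?_⟩
      have h3 : 2 * l n ≤ infDist z'.re E := by
        rw [e1] at hc
        have h4 := infDist_le_infDist_add_dist (s := E) (x := z.re) (y := z'.re)
        have h5 := dist_re_le z z'
        rw [norm_sub_rev] at h5
        linarith
      have e2 : h n z' = z' := hs.off n z' h3
      have e3 : G h (n + 1) z' = G h n z' := by
        show G h n (h n z') = _
        rw [e2]
      have e4 : G h (n + 1) z = G h n z := by
        show G h n (h n z) = _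
        rw [e1]
      rw [e3, e4]
      exact h2 z' (by linarith)

theorem t_NS (E : Set ℝ) (l : ℕ → ℝ) (h : ℕ → ℂ → ℂ) (hs : Sys E l h) : NS E l h ∧ QS l h :=
  ⟨t_NS' hs, t_QS hs⟩

end Pool.Agent.W247.QL

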